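import Pool.Agent.helper55.ZI.Spec2

/-! # Row zi:PPF -/

set_option autoImplicit false

namespace Pool.Agent.helper27.ZI

open Pool.Agent.ZI

universe u

/-- the action of a matrix on a tuple of elements of a module -/
def PPF_act {R M : Type u} [Ring R] [AddCommGroup M] [Module R M] {a b : ℕ}
    (P : Matrix (Fin a) (Fin b) R) (x : Fin b → M) : Fin a → M := fun i => ∑ j, P i j • x j

theorem PPF_act_mul {R M : Type u} [Ring R] [AddCommGroup M] [Module R M] {a b c : ℕ}
    (P : Matrix (Fin a) (Fin b) R) (Q : Matrix (Fin b) (Fin c) R) (x : Fin c → M) :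
    PPF_act (P * Q) x = PPF_act P (PPF_act Q x) := by
  funext i
  simp only [PPF_act, Matrix.mul_apply, Finset.sum_smul, Finset.smul_sum, mul_smul]
  rw [Finset.sum_comm]

theorem PPF_act_neg {R M : Type u} [Ring R] [AddCommGroup M] [Module R M] {a b : ℕ}
    (P : Matrix (Fin a) (Fin b) R) (x : Fin b → M) : PPF_act P (-x) = -PPF_act P x := by
  funext i
  simp only [PPF_act, Pi.neg_apply, smul_neg, Finset.sum_neg_distrib]

theorem PPF_act_sub {R M : Type u} [Ring R] [AddCommGroup M] [Module R M] {a b : ℕ}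
    (P Q : Matrix (Fin a) (Fin b) R) (x : Fin b → M) :
    PPF_act (P - Q) x = PPF_act P x - PPF_act Q x := by
  funext i
  simp only [PPF_act, Pi.sub_apply, Matrix.sub_apply, sub_smul, Finset.sum_sub_distrib]

theorem PPF (hQIN : QIN_stmt.{u}) : PPF_stmt.{u} := by
  intro R _ S hS n φ
  obtain ⟨B', hB'⟩ := hQIN R S hS φ.m φ.k φ.B
  refine ⟨φ.m, φ.A - φ.B * B' * φ.A, ?_⟩
  intro M _ _ x
  have hC : (∀ i, ∑ j, (φ.A - φ.B * B' * φ.A) i j • x j = 0) ↔
      PPF_act φ.A x - PPF_act (φ.B * B' * φ.A) x = 0 := by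
    rw [← PPF_act_sub]
    constructor
    · intro h
      funext i
      exact h i
    · intro h i
      exact congrFun h i
  rw [hC]
  constructor
  · rintro ⟨y, hy⟩
    have hA : PPF_act φ.A x = -PPF_act φ.B y := by
      rw [eq_neg_iff_add_eq_zero]
      funext i
      exact hy i
    rw [PPF_act_mul (φ.B * B') φ.A x, hA, PPF_act_neg, ← PPF_act_mul, hB', sub_self]
  · intro h
    refine ⟨-PPF_act (B' * φ.A) x, ?_⟩
    intro i
    have h1 : PPF_act φ.A x + PPF_act φ.B (-PPF_act (B' * φ.A) x) = 0 := by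
      rw [PPF_act_neg, ← PPF_act_mul, ← Matrix.mul_assoc, ← sub_eq_add_neg]
      exact h
    exact congrFun h1 i

end Pool.Agent.helper27.ZI
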